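import Mathlib

set_option autoImplicit false

namespace Pool.Agent.H421Z.Red

open Finset
open scoped InnerProductSpace

/-- Clamp to the unit interval. -/
noncomputable def cl (z : ℝ) : ℝ := max 0 (min 1 z)

theorem cl_cont : Continuous cl := by unfold cl; fun_prop

theorem cl_sum (y : ℝ) (hy : 0 ≤ y) (M : ℕ) : ∑ j ∈ range M, cl (y - j) = min y M := by
  induction M with
  | zero => simp [hy]
  | succ M ih =>
    rw [sum_range_succ, ih]
    push_cast
    unfold cl
    rcases le_total y M with h | h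
    · rw [min_eq_left h, min_eq_left (by linarith : y ≤ M + 1), min_eq_right (by linarith),
        max_eq_left (by linarith)]
      ring
    · rw [min_eq_right h]
      rcases le_total y (M + 1) with h2 | h2
      · rw [min_eq_left h2, min_eq_right (by linarith), max_eq_right (by linarith)]
        ring
      · rw [min_eq_right h2, min_eq_left (by linarith), max_eq_right (by linarith)]

theorem cl_nonneg (z : ℝ) : 0 ≤ cl z := le_max_left _ _

theorem cl_le (z : ℝ) : cl z ≤ 1 := max_le zero_le_one (min_le_left _ _)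

theorem cl_mono {a b : ℝ} (h : a ≤ b) : cl a ≤ cl b :=
  max_le_max le_rfl (min_le_min le_rfl h)

theorem cl_disj (a b : ℝ) (h : a + 1 ≤ b) : cl a * (1 - cl b) = 0 := by
  rcases le_total a 0 with h1 | h1
  · have : cl a = 0 := by
      unfold cl
      exact max_eq_left ((min_le_right _ _).trans h1)
    rw [this, zero_mul]
  · have : cl b = 1 := by
      unfold cl
      rw [min_eq_left (by linarith), max_eq_right zero_le_one]
    rw [this, sub_self, mul_zero]

variable {H : Type*} [NormedAddCommGroup H] [InnerProductSpace ℂ H] [CompleteSpace H]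

theorem sq_sum (h : H →L[ℂ] H) (φ : ℕ → ℝ → ℝ) (hφ : ∀ j, Continuous (φ j))
    (s : Finset ℕ) (hs : ∀ x, ∑ j ∈ s, φ j x * φ j x ≤ 1) (u : H) :
    ∑ j ∈ s, ‖cfc (φ j) h u‖ ^ 2 ≤ ‖u‖ ^ 2 := by
  have h1 : ∀ j, ‖cfc (φ j) h u‖ ^ 2 = (⟪u, cfc (fun x => φ j x * φ j x) h u⟫_ℂ).re := by
    intro j
    have hsa : IsSelfAdjoint (cfc (φ j) h) := cfc_predicate _ _
    rw [cfc_mul _ _ _ (hφ j).continuousOn (hφ j).continuousOn, ContinuousLinearMap.mul_apply,
      ← ContinuousLinearMap.adjoint_inner_left, hsa.adjoint_eq, inner_self_eq_norm_sq_to_K]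
    norm_cast
  have h2 : ∑ j ∈ s, cfc (fun x => φ j x * φ j x) h = cfc (∑ j ∈ s, fun x => φ j x * φ j x) h := by
    exact (cfc_sum (fun j x => φ j x * φ j x) h s
      (fun j _ => ((hφ j).mul (hφ j)).continuousOn)).symm
  have h3 : ‖cfc (∑ j ∈ s, fun x => φ j x * φ j x) h‖ ≤ 1 := by
    apply norm_cfc_le zero_le_one
    intro x _
    rw [Finset.sum_apply, Real.norm_eq_abs, abs_of_nonneg (sum_nonneg (fun j _ => mul_self_nonneg _))]
    exact hs x
  calc ∑ j ∈ s, ‖cfc (φ j) h u‖ ^ 2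
      = (⟪u, cfc (∑ j ∈ s, fun x => φ j x * φ j x) h u⟫_ℂ).re := by
        rw [← h2, ContinuousLinearMap.sum_apply, inner_sum, Complex.re_sum]
        exact sum_congr rfl (fun j _ => h1 j)
    _ ≤ ‖⟪u, cfc (∑ j ∈ s, fun x => φ j x * φ j x) h u⟫_ℂ‖ := Complex.re_le_norm _
    _ ≤ ‖u‖ * ‖cfc (∑ j ∈ s, fun x => φ j x * φ j x) h u‖ := norm_inner_le_norm _ _
    _ ≤ ‖u‖ * (1 * ‖u‖) := by
        apply mul_le_mul_of_nonneg_left _ (norm_nonneg _)
        exact (ContinuousLinearMap.le_opNorm _ _).trans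
          (mul_le_mul_of_nonneg_right h3 (norm_nonneg _))
    _ = ‖u‖ ^ 2 := by ring

theorem inner_term (a b Q : H →L[ℂ] H) (ha : IsSelfAdjoint a) (u v : H) :
    ‖⟪v, (a * Q * b) u⟫_ℂ‖ ≤ ‖Q‖ * ((‖a v‖ ^ 2 + ‖b u‖ ^ 2) / 2) := by
  rw [ContinuousLinearMap.mul_apply, ContinuousLinearMap.mul_apply,
    ← ContinuousLinearMap.adjoint_inner_left, ha.adjoint_eq]
  have h1 := norm_inner_le_norm (𝕜 := ℂ) (a v) (Q (b u))
  have h2 := Q.le_opNorm (b u)
  have h3 : ‖a v‖ * ‖Q (b u)‖ ≤ ‖a v‖ * (‖Q‖ * ‖b u‖) :=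
    mul_le_mul_of_nonneg_left h2 (norm_nonneg _)
  have h4 : ‖a v‖ * ‖b u‖ ≤ (‖a v‖ ^ 2 + ‖b u‖ ^ 2) / 2 := by
    nlinarith [sq_nonneg (‖a v‖ - ‖b u‖)]
  have h5 := mul_le_mul_of_nonneg_left h4 (norm_nonneg Q)
  nlinarith

theorem comm_bound (h Q : H →L[ℂ] H) (hh : IsSelfAdjoint h)
    (hQ : ∀ f g : ℝ → ℝ, Continuous f → Continuous g → (∀ x, f x * g x = 0) →
      cfc f h * Q * cfc g h = 0) (δ : ℝ) (hδ : 0 < δ) (u v : H) :
    ‖⟪v, (h * Q - Q * h) u⟫_ℂ‖ ≤ δ * (‖Q‖ * (‖u‖ ^ 2 + ‖v‖ ^ 2)) := by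
  obtain ⟨K, hK⟩ := exists_nat_ge (‖h‖ * ‖(1 : H →L[ℂ] H)‖ / δ)
  set e : ℕ → ℝ → ℝ := fun j x => cl (x / δ + K + 1 - j) with he
  have hec : ∀ j, Continuous (e j) := fun j => cl_cont.comp (by fun_prop)
  set φ : ℕ → ℝ → ℝ := fun j x => e j x - e (j + 1) x with hφ
  have hφc : ∀ j, Continuous (φ j) := fun j => (hec j).sub (hec (j + 1))
  have hΦ : ∀ j, cfc (φ j) h = cfc (e j) h - cfc (e (j + 1)) h := fun j =>
    cfc_sub _ _ _ (hec j).continuousOn (hec (j + 1)).continuousOn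
  have hone : ∀ j, cfc (fun x => 1 - e j x) h = 1 - cfc (e j) h := by
    intro j
    rw [cfc_sub _ _ _ continuousOn_const (hec j).continuousOn, cfc_const_one ℝ h]
  have hd1 : ∀ j x, e (j + 1) x * (1 - e j x) = 0 := by
    intro j x
    apply cl_disj
    push_cast; linarith
  have hd2 : ∀ j x, φ (j + 1) x * (1 - e j x) = 0 := by
    intro j x
    have h1 := hd1 j x
    have h2 : e (j + 1 + 1) x * (1 - e j x) = 0 := by
      apply cl_disj
      push_cast; linarith
    simp only [hφ]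
    linear_combination h1 - h2
  have hterm : ∀ j, cfc (e (j + 1)) h * Q - Q * cfc (e (j + 1)) h =
      cfc (φ (j + 1)) h * Q * cfc (φ j) h - cfc (φ j) h * Q * cfc (φ (j + 1)) h := by
    intro j
    have z1 := hQ (e (j + 1 + 1)) (fun x => 1 - e (j + 1) x) (hec _) (continuous_const.sub (hec _))
      (hd1 (j + 1))
    have z2 := hQ (φ (j + 1)) (fun x => 1 - e j x) (hφc _) (continuous_const.sub (hec _)) (hd2 j)
    have z3 := hQ (fun x => 1 - e (j + 1) x) (e (j + 1 + 1)) (continuous_const.sub (hec _)) (hec _)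
      (fun x => by rw [mul_comm]; exact hd1 (j + 1) x)
    have z4 := hQ (fun x => 1 - e j x) (φ (j + 1)) (continuous_const.sub (hec _)) (hφc _)
      (fun x => by rw [mul_comm]; exact hd2 j x)
    rw [hone] at z1 z2 z3 z4
    rw [hΦ] at z2 z4
    rw [hΦ, hΦ]
    set a := cfc (e j) h
    set b := cfc (e (j + 1)) h
    set c := cfc (e (j + 1 + 1)) h
    have : b * Q - Q * b = (b - c) * Q * (a - b) - (a - b) * Q * (b - c) + c * Q * (1 - b)
        + (b - c) * Q * (1 - a) - (1 - b) * Q * c - (1 - a) * Q * (b - c) := by noncomm_ring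
    rw [this, z1, z2, z3, z4]
    simp
  have hsum : ∑ j ∈ range (2 * K), cfc (e (j + 1)) h = δ⁻¹ • h + (K : ℝ) • (1 : H →L[ℂ] H) := by
    rw [← cfc_sum _ _ _ (fun j _ => (hec (j + 1)).continuousOn)]
    have : cfc (∑ j ∈ range (2 * K), e (j + 1)) h = cfc (fun x : ℝ => δ⁻¹ • x + (K : ℝ)) h := by
      apply cfc_congr
      intro x hx
      have hx1 := spectrum.norm_le_norm_mul_of_mem hx
      rw [Real.norm_eq_abs] at hx1
      have hx2 : |x / δ| ≤ K := by
        rw [abs_div, abs_of_pos hδ]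
        exact (div_le_div_of_nonneg_right hx1 hδ.le).trans hK
      rw [abs_le] at hx2
      rw [Finset.sum_apply]
      have h3 := cl_sum (x / δ + K) (by linarith) (2 * K)
      rw [min_eq_left (by push_cast; linarith)] at h3
      simp only [smul_eq_mul]
      rw [inv_mul_eq_div, ← h3]
      apply sum_congr rfl
      intro j _
      simp only [he]
      congr 1
      push_cast; ring
    rw [this, cfc_add _ _ _ (by fun_prop) (by fun_prop), cfc_smul_id δ⁻¹ h, cfc_const _ h,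
      Algebra.algebraMap_eq_smul_one]
  have hcomm : δ⁻¹ • (h * Q - Q * h) = ∑ j ∈ range (2 * K),
      (cfc (φ (j + 1)) h * Q * cfc (φ j) h - cfc (φ j) h * Q * cfc (φ (j + 1)) h) := by
    rw [← sum_congr rfl (fun j _ => hterm j), sum_sub_distrib, ← Finset.sum_mul, ← Finset.mul_sum,
      hsum]
    simp only [add_mul, mul_add, smul_mul_assoc, mul_smul_comm, one_mul, mul_one, smul_sub]
    abel
  have hφ0 : ∀ j x, 0 ≤ φ j x := by
    intro j x
    simp only [hφ, he, sub_nonneg]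
    apply cl_mono
    push_cast; linarith
  have hφ1 : ∀ j x, φ j x ≤ 1 := by
    intro j x
    have := cl_le (x / δ + K + 1 - j)
    have := cl_nonneg (x / δ + K + 1 - (j + 1 : ℕ))
    simp only [hφ, he]
    linarith
  have hsq : ∀ i x, ∑ j ∈ range (2 * K), φ (j + i) x * φ (j + i) x ≤ 1 := by
    intro i x
    have h1 : ∑ j ∈ range (2 * K), φ (j + i) x * φ (j + i) x ≤ ∑ j ∈ range (2 * K), φ (j + i) x := by
      apply sum_le_sum
      intro j _
      have := hφ0 (j + i) x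
      have := hφ1 (j + i) x
      nlinarith
    have h2 : ∑ j ∈ range (2 * K), φ (j + i) x = e i x - e (2 * K + i) x := by
      have := Finset.sum_range_sub' (fun j => e (j + i) x) (2 * K)
      simp only [zero_add] at this
      rw [← this]
      apply sum_congr rfl
      intro j _
      simp only [hφ]
      rw [add_right_comm]
    have h3 : e i x ≤ 1 := cl_le _
    have h4 : 0 ≤ e (2 * K + i) x := cl_nonneg _
    linarith
  have s0 := fun w => sq_sum h (fun j => φ (j + 0)) (fun j => hφc _) (range (2 * K)) (hsq 0) w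
  have s1 := fun w => sq_sum h (fun j => φ (j + 1)) (fun j => hφc _) (range (2 * K)) (hsq 1) w
  simp only [add_zero] at s0
  have hfin : ‖⟪v, (δ⁻¹ • (h * Q - Q * h)) u⟫_ℂ‖ ≤ ‖Q‖ * (‖u‖ ^ 2 + ‖v‖ ^ 2) := by
    rw [hcomm, ContinuousLinearMap.sum_apply, inner_sum]
    refine (norm_sum_le _ _).trans ?_
    have hb : ∀ j ∈ range (2 * K), ‖⟪v, (cfc (φ (j + 1)) h * Q * cfc (φ j) h -
        cfc (φ j) h * Q * cfc (φ (j + 1)) h) u⟫_ℂ‖ ≤
        ‖Q‖ * ((‖cfc (φ (j + 1)) h v‖ ^ 2 + ‖cfc (φ j) h u‖ ^ 2) / 2) +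
        ‖Q‖ * ((‖cfc (φ j) h v‖ ^ 2 + ‖cfc (φ (j + 1)) h u‖ ^ 2) / 2) := by
      intro j _
      rw [ContinuousLinearMap.sub_apply, inner_sub_right]
      refine (norm_sub_le _ _).trans (add_le_add ?_ ?_)
      · exact inner_term _ _ _ (cfc_predicate _ _) u v
      · exact inner_term _ _ _ (cfc_predicate _ _) u v
    refine (sum_le_sum hb).trans ?_
    rw [sum_add_distrib, ← Finset.mul_sum, ← Finset.mul_sum, ← mul_add, ← Finset.sum_div,
      ← Finset.sum_div, sum_add_distrib, sum_add_distrib]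
    apply mul_le_mul_of_nonneg_left _ (norm_nonneg _)
    linarith [s0 u, s0 v, s1 u, s1 v]
  have hsm : (h * Q - Q * h) u = (δ : ℂ) • ((δ⁻¹ • (h * Q - Q * h)) u) := by
    rw [ContinuousLinearMap.smul_apply, ← Complex.coe_smul, smul_smul]
    have : (δ : ℂ) * ((δ⁻¹ : ℝ) : ℂ) = 1 := by
      rw [← Complex.ofReal_mul, mul_inv_cancel₀ hδ.ne', Complex.ofReal_one]
    rw [this, one_smul]
  rw [hsm, inner_smul_right, norm_mul, Complex.norm_real, Real.norm_eq_abs, abs_of_pos hδ]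
  exact mul_le_mul_of_nonneg_left hfin hδ.le

theorem comm_of_disj (h Q : H →L[ℂ] H) (hh : IsSelfAdjoint h)
    (hQ : ∀ f g : ℝ → ℝ, Continuous f → Continuous g → (∀ x, f x * g x = 0) →
      cfc f h * Q * cfc g h = 0) : h * Q = Q * h := by
  rw [← sub_eq_zero]
  ext u
  apply ext_inner_left ℂ
  intro v
  rw [ContinuousLinearMap.zero_apply, inner_zero_right, ← norm_le_zero_iff]
  apply le_of_forall_pos_le_add
  intro ε hε
  set C := ‖Q‖ * (‖u‖ ^ 2 + ‖v‖ ^ 2) with hC
  have hC0 : 0 ≤ C := by positivity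
  have := comm_bound h Q hh hQ (ε / (C + 1)) (by positivity) u v
  refine this.trans ?_
  rw [zero_add, div_mul_eq_mul_div, div_le_iff₀ (by positivity)]
  nlinarith

end Pool.Agent.H421Z.Red
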