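import Pool.Agent.H421Z.Red.Comm

set_option autoImplicit false

namespace Pool.Agent.H421Z.Red

open scoped InnerProductSpace
open ContinuousLinearMap

variable {H : Type*} [NormedAddCommGroup H] [InnerProductSpace ℂ H] [CompleteSpace H]

theorem proj_comm (A : H →L[ℂ] H) (M : Submodule ℂ H) [M.HasOrthogonalProjection]
    (h1 : ∀ x ∈ M, A x ∈ M) (h2 : ∀ x ∈ M, adjoint A x ∈ M) :
    M.starProjection * A = A * M.starProjection := by
  ext x
  have hperp : A (x - M.starProjection x) ∈ Mᗮ := by
    rw [Submodule.mem_orthogonal]
    intro u hu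
    rw [← adjoint_inner_left]
    exact Submodule.inner_right_of_mem_orthogonal (h2 u hu) (M.sub_starProjection_mem_orthogonal x)
  have e1 : M.starProjection (A (M.starProjection x)) = A (M.starProjection x) :=
    Submodule.starProjection_eq_self_iff.mpr (h1 _ (M.starProjection_apply_mem x))
  have e2 : M.starProjection (A (x - M.starProjection x)) = 0 := by
    rw [Submodule.starProjection_apply, Submodule.orthogonalProjection_eq_zero_iff.mpr hperp]
    simp
  have e3 : A x = A (M.starProjection x) + A (x - M.starProjection x) := by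
    rw [← map_add]; simp
  change M.starProjection (A x) = A (M.starProjection x)
  rw [e3, map_add, e1, e2, add_zero]

theorem disj (A N X Y a b : H →L[ℂ] H) (hX : Function.Injective X)
    (hXA : X * A = N * X) (hAY : A * Y = Y * N)
    (hred : ∀ M : Submodule ℂ H, IsClosed (M : Set H) → (∀ x ∈ M, A x ∈ M) →
      ∀ x ∈ M, adjoint A x ∈ M)
    (ha : IsSelfAdjoint a) (haN : a * N = N * a) (hb : ∀ Z : H →L[ℂ] H, Z * N = N * Z → b * Z = Z * b)
    (hab : b * a = 0) : a * (adjoint Y * Y) * b = 0 := by
  set M : Submodule ℂ H := (LinearMap.range ((Y * a : H →L[ℂ] H) : H →ₗ[ℂ] H)).topologicalClosure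
    with hM
  have hMc : IsClosed (M : Set H) := Submodule.isClosed_topologicalClosure _
  haveI : CompleteSpace M := hMc.completeSpace_coe
  have hmem : ∀ v, Y (a v) ∈ M := fun v => Submodule.le_topologicalClosure _ ⟨v, rfl⟩
  have hAM : ∀ x ∈ M, A x ∈ M := by
    have : M ≤ M.comap (A : H →ₗ[ℂ] H) := by
      apply Submodule.topologicalClosure_minimal
      · rintro _ ⟨v, rfl⟩
        change A (Y (a v)) ∈ M
        have e : A * Y * a = Y * a * N := by rw [hAY, mul_assoc, ← haN, mul_assoc]
        have e' : A (Y (a v)) = Y (a (N v)) := congrArg (fun T : H →L[ℂ] H => T v) e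
        rw [e']
        exact hmem _
      · exact hMc.preimage A.continuous
    exact fun x hx => this hx
  have hP := proj_comm A M hAM (hred M hMc hAM)
  set P := M.starProjection with hPdef
  have hXY : X * Y * N = N * (X * Y) := by
    rw [mul_assoc, ← hAY, ← mul_assoc, hXA, mul_assoc]
  have hXPY : X * P * Y * N = N * (X * P * Y) := by
    calc X * P * Y * N = X * (P * A) * Y := by rw [mul_assoc (X * P), ← hAY]; noncomm_ring
      _ = (X * A) * P * Y := by rw [hP]; noncomm_ring
      _ = N * (X * P * Y) := by rw [hXA]; noncomm_ring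
  have hker : ∀ x ∈ M, b (X x) = 0 := by
    have : M ≤ LinearMap.ker ((b * X : H →L[ℂ] H) : H →ₗ[ℂ] H) := by
      apply Submodule.topologicalClosure_minimal
      · rintro _ ⟨v, rfl⟩
        change b (X (Y (a v))) = 0
        have e : b * (X * Y) * a = 0 := by rw [hb _ hXY, mul_assoc, hab, mul_zero]
        exact congrArg (fun T : H →L[ℂ] H => T v) e
      · exact (b * X).isClosed_ker
    exact fun x hx => this hx
  have hPYb : ∀ u, P (Y (b u)) = 0 := by
    intro u
    apply hX
    have e : X (P (Y (b u))) = b (X (P (Y u))) :=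
      (congrArg (fun T : H →L[ℂ] H => T u) (hb _ hXPY)).symm
    rw [e, map_zero]
    exact hker _ (M.starProjection_apply_mem _)
  ext u
  apply ext_inner_left ℂ
  intro v
  change ⟪v, a (adjoint Y (Y (b u)))⟫_ℂ = ⟪v, 0⟫_ℂ
  rw [inner_zero_right, ← adjoint_inner_left, ha.adjoint_eq, adjoint_inner_right]
  have hperp : Y (b u) ∈ Mᗮ := by
    have := M.sub_starProjection_mem_orthogonal (Y (b u))
    rw [← hPdef, hPYb, sub_zero] at this
    exact this
  exact Submodule.inner_right_of_mem_orthogonal (hmem v) hperp

theorem main (A N X Y : H →L[ℂ] H) (hN : IsStarNormal N) (hX : Function.Injective X)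
    (hY : DenseRange Y) (hXA : X * A = N * X) (hAY : A * Y = Y * N)
    (hred : ∀ M : Submodule ℂ H, IsClosed (M : Set H) → (∀ x ∈ M, A x ∈ M) →
      ∀ x ∈ M, adjoint A x ∈ M) : IsStarNormal A := by
  set Q := adjoint Y * Y with hQ
  have key : ∀ h : H →L[ℂ] H, IsSelfAdjoint h →
      (∀ Z : H →L[ℂ] H, Z * N = N * Z → h * Z = Z * h) → h * Q = Q * h := by
    intro h hh hc
    apply comm_of_disj h Q hh
    intro f g hf hg hfg
    apply disj A N X Y _ _ hX hXA hAY hred (cfc_predicate _ _)
    · exact Commute.cfc_real (hc N rfl) f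
    · intro Z hZ
      exact Commute.cfc_real (hc Z hZ) g
    · rw [← cfc_mul _ _ _ hg.continuousOn hf.continuousOn]
      have : (fun x => g x * f x) = fun _ => 0 := by
        funext x; rw [mul_comm]; exact hfg x
      rw [this]
      exact cfc_zero ℝ h
  have hfug : ∀ Z : H →L[ℂ] H, Z * N = N * Z → star N * Z = Z * star N := by
    intro Z hZ
    exact (hN.commute_star_right (x := Z) hZ).symm
  have k1 := key (N + star N) (IsSelfAdjoint.add_star_self N) (by
    intro Z hZ
    rw [add_mul, mul_add, hZ, hfug Z hZ])
  have k2 := key (Complex.I • (N - star N)) (by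
      rw [IsSelfAdjoint, star_smul, star_sub, star_star, Complex.star_def, Complex.conj_I,
        neg_smul, ← smul_neg, neg_sub]) (by
    intro Z hZ
    rw [smul_mul_assoc, mul_smul_comm, sub_mul, mul_sub, hZ, hfug Z hZ])
  rw [smul_mul_assoc, mul_smul_comm] at k2
  have k3 : (N - star N) * Q = Q * (N - star N) := smul_right_injective _ Complex.I_ne_zero k2
  have k4 : N * Q = Q * N := by
    have : (2 : ℂ) • (N * Q) = (2 : ℂ) • (Q * N) := by
      rw [two_smul, two_smul]
      calc N * Q + N * Q = (N + star N) * Q + (N - star N) * Q := by noncomm_ring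
        _ = Q * (N + star N) + Q * (N - star N) := by rw [k1, k3]
        _ = Q * N + Q * N := by noncomm_ring
    exact smul_right_injective _ two_ne_zero this
  have k5 : star N * Q = Q * star N := hfug Q k4.symm
  have hstar : star A * Y = Y * star N := by
    ext x
    have hz : ∀ w, ⟪w, (star A * Y) x⟫_ℂ = ⟪w, (Y * star N) x⟫_ℂ := by
      intro w
      induction w using hY.induction_on with
      | hp => exact isClosed_eq (by fun_prop) (by fun_prop)
      | ih w =>
        rw [← adjoint_inner_right, ← adjoint_inner_right]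
        congr 1
        have e1 : star Y * star A = star N * star Y := by
          rw [← star_mul, hAY, star_mul]
        have e2 : star Y * (star A * Y) = star Y * (Y * star N) := by
          calc star Y * (star A * Y) = star N * Q := by
                rw [← mul_assoc, e1, mul_assoc, hQ, star_eq_adjoint Y]
            _ = star Y * (Y * star N) := by
                rw [k5, hQ, star_eq_adjoint Y, mul_assoc]
        exact congrArg (fun T : H →L[ℂ] H => T x) e2
    exact ext_inner_left ℂ hz
  have hfin : star A * A * Y = A * star A * Y := by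
    calc star A * A * Y = star A * Y * N := by rw [mul_assoc, hAY, mul_assoc]
      _ = Y * (star N * N) := by rw [hstar, mul_assoc]
      _ = Y * (N * star N) := by rw [hN.star_comm_self.eq]
      _ = A * star A * Y := by rw [← mul_assoc, ← hAY, mul_assoc, ← hstar, mul_assoc]
  constructor
  rw [commute_iff_eq]
  ext w
  induction w using hY.induction_on with
  | hp => exact isClosed_eq (by fun_prop) (by fun_prop)
  | ih w => exact congrArg (fun T : H →L[ℂ] H => T w) hfin

end Pool.Agent.H421Z.Red
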